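import Mathlib
import Pool.Agent.H6.SolAut

set_option autoImplicit false

namespace Pool.Agent.Results.MP_7909d8_al.DerivedFour

universe u

/-- Every countable group embeds in the automorphism group of a finitely generated group whose
fourth derived subgroup is trivial. -/
theorem result (G : Type u) [Group G] [Countable G] :
    ∃ (S : Type u) (_ : Group S), Group.FG S ∧ derivedSeries S 4 = ⊥ ∧
      ∃ f : G →* MulAut S, Function.Injective f :=
  Pool.Agent.H6.SolAut.main G

end Pool.Agent.Results.MP_7909d8_al.DerivedFour
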